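import Pool.Agent.H41.T1.S5

/-!
# T1: CT2K (the order of the group of upper triangular matrices)
-/

set_option autoImplicit false

namespace Pool.T1

open Polynomial Matrix Pool.HYP Pool.TOW Pool.AVS IsDedekindDomain

theorem ct2k : CT2KStmt := by
  intro R _ _ K _ _ _ O π hGR hU c hL n d hd
  classical
  have hq : 0 < qq O := by
    have := hGR.res
    exact Nat.card_pos
  have hc : 1 ≤ c := by
    by_contra h
    have h0 : c = 0 := by omega
    have h1 := hL 0
    rw [h0, zero_mul, zero_add, pow_one] at h1
    omega
  -- the possible entries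
  let A : Fin n → Fin n → Set R := fun i j => if i < j then Lm R O π (d j - d i) else {0}
  have hAfin : ∀ i j, (A i j).Finite := by
    intro i j
    by_cases hij : i < j
    · have e : A i j = Lm R O π (d j - d i) := if_pos hij
      rw [e]
      exact (hU _).1
    · have e : A i j = {0} := if_neg hij
      rw [e]
      exact Set.finite_singleton _
  have hfin : (UUK R O π d).Finite := by
    have h1 : {u : Matrix (Fin n) (Fin n) R | ∀ i j, u i j ∈ A i j ∪ {1}}.Finite := by
      have h2 : ∀ i : Fin n, {r : Fin n → R | ∀ j, r j ∈ A i j ∪ {1}}.Finite := fun i =>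
        Set.Finite.pi' fun j => (hAfin i j).union (Set.finite_singleton _)
      exact Set.Finite.pi' (t := fun i => {r : Fin n → R | ∀ j, r j ∈ A i j ∪ {1}}) h2
    refine h1.subset ?_
    rintro u ⟨h2, h3, h4⟩ i j
    rcases lt_trichotomy i j with hij | hij | hij
    · refine Or.inl ?_
      have e : A i j = Lm R O π (d j - d i) := if_pos hij
      rw [e]
      exact h4 i j hij
    · subst hij
      exact Or.inr (h2 i)
    · refine Or.inl ?_
      have e : A i j = {0} := if_neg (not_lt_of_gt hij)
      rw [e]
      exact h3 i j hij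
  refine ⟨hfin, ?_⟩
  let T : Type := ∀ i j : Fin n, A i j
  have hcard : ∀ i j, qq O ^ (if i < j then (d j - d i + 1).toNat else 0) ≤
      c * Nat.card (A i j) := by
    intro i j
    by_cases hij : i < j
    · have e : A i j = Lm R O π (d j - d i) := if_pos hij
      rw [if_pos hij, e, Nat.card_coe_set_eq]
      have h0 : 0 ≤ d j - d i := sub_nonneg.2 (hd hij.le)
      obtain ⟨m, hm⟩ := Int.eq_ofNat_of_zero_le h0
      rw [hm]
      have e2 : ((m : ℤ) + 1).toNat = m + 1 := by omega
      rw [e2]
      exact hL m
    · have e : A i j = {0} := if_neg hij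
      rw [if_neg hij, e, Nat.card_coe_set_eq, Set.ncard_singleton, pow_zero, mul_one]
      exact hc
  have hT : Nat.card T = ∏ i, ∏ j, Nat.card (A i j) := by
    show Nat.card (∀ i j : Fin n, A i j) = _
    rw [Nat.card_pi]
    exact Finset.prod_congr rfl fun i _ => Nat.card_pi
  let φ : T → Matrix (Fin n) (Fin n) R := fun t =>
    Matrix.of fun i j => if i = j then 1 else ((t i j : A i j) : R)
  have hzero : ∀ (t : T) (i j : Fin n), ¬ i < j → ((t i j : A i j) : R) = 0 := by
    intro t i j hij
    have h := (t i j).2
    have e : A i j = {0} := if_neg hij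
    have h' : ((t i j : A i j) : R) ∈ ({0} : Set R) := e ▸ h
    exact h'
  have hinj : Function.Injective φ := by
    intro t t' htt
    funext i j
    apply Subtype.ext
    by_cases hij : i < j
    · have h := congrFun (congrFun htt i) j
      change (if i = j then (1 : R) else (t i j : R)) =
        (if i = j then (1 : R) else (t' i j : R)) at h
      rwa [if_neg (ne_of_lt hij), if_neg (ne_of_lt hij)] at h
    · rw [hzero t i j hij, hzero t' i j hij]
  have hran : Set.range φ ⊆ UUK R O π d := by
    rintro _ ⟨t, rfl⟩
    refine ⟨fun i => ?_, fun i j hji => ?_, fun i j hij => ?_⟩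
    · show (if i = i then (1 : R) else _) = _
      rw [if_pos rfl]
    · show (if i = j then (1 : R) else (t i j : R)) = 0
      rw [if_neg (ne_of_gt hji)]
      exact hzero t i j (not_lt_of_gt hji)
    · show (if i = j then (1 : R) else (t i j : R)) ∈ _
      rw [if_neg (ne_of_lt hij)]
      have h := (t i j).2
      have e : A i j = Lm R O π (d j - d i) := if_pos hij
      exact e ▸ h
  have hle : qq O ^ EUk d ≤ c ^ (n * n) * Nat.card T := by
    have e1 : EUk d = ∑ i, ∑ j, (if i < j then (d j - d i + 1).toNat else 0) := rfl
    rw [e1, ← Finset.prod_pow_eq_pow_sum]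
    calc ∏ i, qq O ^ ∑ j, (if i < j then (d j - d i + 1).toNat else 0)
        = ∏ i, ∏ j, qq O ^ (if i < j then (d j - d i + 1).toNat else 0) :=
          Finset.prod_congr rfl fun i _ => (Finset.prod_pow_eq_pow_sum _ _ _).symm
      _ ≤ ∏ i : Fin n, ∏ j : Fin n, c * Nat.card (A i j) :=
          Finset.prod_le_prod' fun i _ => Finset.prod_le_prod' fun j _ => hcard i j
      _ = c ^ (n * n) * Nat.card T := by
          rw [hT]
          simp only [Finset.prod_mul_distrib, Finset.prod_const, Finset.card_univ, Fintype.card_fin]
          rw [← pow_mul]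
  refine hle.trans (Nat.mul_le_mul_left _ ?_)
  calc Nat.card T = (Set.range φ).ncard := by
        rw [← Nat.card_coe_set_eq]
        exact (Nat.card_range_of_injective hinj).symm
    _ ≤ (UUK R O π d).ncard := Set.ncard_le_ncard hran hfin

end Pool.T1
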