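import Pool.Agent.H29.T1.S2
import Pool.Agent.H86.HYP.ONE
import Pool.Agent.H74.HYP.UNR
import Pool.Agent.H97.HYP.LDE
import Pool.Agent.H69.HYP.TYQ
import Pool.Agent.H69.HYP.TYM
import Pool.Agent.H97.HYP.TY0
import Pool.Agent.H9.HYP.TYU

/-!
# T1: ONEK (a twist with trivial Selmer group)
-/

set_option autoImplicit false

namespace Pool.T1

open Polynomial Matrix Pool.HYP Pool.TOW Pool.AVS IsDedekindDomain

namespace ONEK90

/-- The local data at a prime of `T`. -/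
theorem locdata (hI : INOKStmt) {R : Type} [CommRing R] [IsDedekindDomain R] {K : Type} [Field K]
    [Algebra R K] [IsFractionRing R K] {P : HeightOneSpectrum R} {ϖ : R} {L : Type} [Field L]
    {O' : ValuationSubring L} {ι : K →+* L} (hC : CompP P ϖ L O' ι) {g : ℕ} (hg : 1 ≤ g)
    {c₀ : R} {γ₀ : R[X]} (hok : OkP (2 * g) P.asIdeal γ₀) {f : R[X]} (hf : f.Monic)
    (hd : Zer P.asIdeal (f - (X - C c₀) * γ₀)) :
    ∃ (c : O') (γ : O'[X]), OkL O' g γ ∧ (fk K f).map ι = oL O' ((X - C c) * γ) ∧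
      (∀ h : K[X], IsCoprime h (fk K f) →
        (USL O' ((X - C c) * γ) (h.map ι) ↔ US P.asIdeal f h)) ∧
      (∀ h : K[X], IsCoprime h (fk K f) → TRL O' ((X - C c) * γ) (h.map ι) →
        TR P.asIdeal f h) := by
  obtain ⟨fO, hfm, -, hfO, -, h2, -, h3, h4⟩ := hI R K P ϖ L O' ι hC f hf
  obtain ⟨c₁, γ₁, hm, hn, hir, hrd⟩ := h2 c₀ γ₀ (2 * g) hok hd
  obtain ⟨c, γ, hk, hfc, -, -⟩ := lde L O' (ι (algebraMap R K ϖ)) hC.loc g fO c₁ γ₁ hg hfm hm hn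
    hir hrd
  subst hfc
  exact ⟨c, γ, hk, hfO.symm, h3, h4⟩

/-- The main step, with given completions. -/
theorem core (hLINB : LINBStmt) (hINO : INOKStmt) (hIRU : IRUKStmt) (hLDA : LDAKStmt)
    (hLDB : LDBKStmt) (hUSM : USMKStmt) {R : Type} [CommRing R] [IsDedekindDomain R] {K : Type}
    [Field K] [Algebra R K] [IsFractionRing R K] {O : ValuationSubring K} {π : K} {g : ℕ}
    {Ram : Finset (HeightOneSpectrum R)} (hg : 1 ≤ g) (hRec : Rec (R := R) (O := O) π Ram)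
    (D : Dat R O) (h : ℕ) (hok : D.Ok g) (hRam : Ram ⊆ D.T') (f : R[X]) (hf : f ∈ Fam π g D h)
    (hsm : Smooth f) (hbad : ¬ Bad K D.T f) (ϖ : HeightOneSpectrum R → R)
    (L : HeightOneSpectrum R → Type) [∀ P, Field (L P)] (O' : ∀ P, ValuationSubring (L P))
    (ι : ∀ P, K →+* L P) (hC : ∀ P, CompP P (ϖ P) (L P) (O' P) (ι P)) :
    ∃ S ⊆ D.T, ∀ d : R, Twi D.T D.T' S d → ∀ α : K[X], IsCoprime α (fk K f) → NSq (fk K f) α →
      (¬ ∃ s, fk K f ∣ α - s ^ 2) → (∀ P, LSDK (ι P) d f α) → False := by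
  classical
  have hTYM : TYMStmt := tym unr nmu
  have hTY0 : TY0Stmt := ty0_of unr
  have hTYU : TYUStmt := tyu unr nmu
  have hCLA : CLAStmt := cla unr
  have hfm : f.Monic := hf.1.1
  have hfn : f.natDegree = 2 * g + 1 := hf.1.2.1
  have hfK : (fk K f).Monic := hfm.map _
  -- the local data
  have hloc : ∀ P, ∃ (c : O' P) (γ : (O' P)[X]), P ∈ D.T → OkL (O' P) g γ ∧
      (fk K f).map (ι P) = oL (O' P) ((X - C c) * γ) ∧
      (∀ h : K[X], IsCoprime h (fk K f) →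
        (USL (O' P) ((X - C c) * γ) (h.map (ι P)) ↔ US P.asIdeal f h)) ∧
      (∀ h : K[X], IsCoprime h (fk K f) → TRL (O' P) ((X - C c) * γ) (h.map (ι P)) →
        TR P.asIdeal f h) := by
    intro P
    by_cases hP : P ∈ D.T
    · obtain ⟨c, γ, h1⟩ := locdata hINO (hC P) hg (hok.2.1 P hP) hfm (hf.2.2.1 P hP)
      exact ⟨c, γ, fun _ => h1⟩
    · exact ⟨0, 0, fun h => absurd h hP⟩
  choose c γ hdat using hloc
  have hcop : ∀ P ∈ D.T, ∀ α : K[X], IsCoprime α (fk K f) →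
      IsCoprime (α.map (ι P)) (oL (O' P) ((X - C (c P)) * γ P)) := by
    intro P hP α hα
    rw [← (hdat P hP).2.1]
    exact One86.cop_map (ι P) hα
  have hnsq : ∀ P ∈ D.T, ∀ α : K[X], NSq (fk K f) α →
      NSq (oL (O' P) ((X - C (c P)) * γ P)) (α.map (ι P)) := by
    intro P hP α hα
    rw [← (hdat P hP).2.1]
    exact One86.nsq_map (ι P) hfK hα
  -- the set of vectors of types
  set W : Set (HeightOneSpectrum R → Ty) := {x | ∃ α : K[X],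
    IsCoprime α (fk K f) ∧ NSq (fk K f) α ∧
    (∀ P : HeightOneSpectrum R, P ∉ D.T → US P.asIdeal f α) ∧
    ∀ P ∈ D.T, TyL (O' P) (ι P (algebraMap R K (ϖ P))) (c P) (γ P) (x P) (α.map (ι P))} with hW
  have hadd : ∀ x ∈ W, ∀ y ∈ W, x + y ∈ W := by
    rintro x ⟨α, hα, hNα, hUα, hTα⟩ y ⟨β, hβ, hNβ, hUβ, hTβ⟩
    refine ⟨α * β, hα.mul_left hβ, One86.nsq_mul hNα hNβ, fun P h1 =>
      hUSM R K P.asIdeal f α β (hUα P h1) (hUβ P h1), fun P hP => ?_⟩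
    rw [Polynomial.map_mul]
    exact hTYM _ _ _ (hC P).loc g (c P) (γ P) hg (hdat P hP).1 _ _ (x P) (y P) (hcop P hP α hα)
      (hcop P hP β hβ) (hnsq P hP α hNα) (hnsq P hP β hNβ) (hTα P hP) (hTβ P hP)
  have hiso : ∀ x ∈ W, ∀ y ∈ W, ∑ P ∈ D.T, ((x P).1 * (y P).2 + (x P).2 * (y P).1) = 0 := by
    rintro x ⟨α, hα, hNα, hUα, hTα⟩ y ⟨β, hβ, hNβ, hUβ, hTβ⟩
    refine hRec g D h hg hok hRam f hf ϖ L O' ι (fun P _ => hC P) c γ
      (fun P hP => ⟨(hdat P hP).1, (hdat P hP).2.1⟩) α β x y ?_ hTα hTβ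
    intro δ hδ
    rcases hδ with hδ | hδ
    · rw [hδ]
      exact ⟨hα, hNα, hUα⟩
    · rw [Set.mem_singleton_iff.1 hδ]
      exact ⟨hβ, hNβ, hUβ⟩
  obtain ⟨S, hST, hS⟩ := hLINB (HeightOneSpectrum R) D.T W hadd hiso
  refine ⟨S, hST, ?_⟩
  intro d hd α hα hNα hns hLSP
  obtain ⟨hd0, hdS, hdT, hdO⟩ := hd
  -- classes of units outside `S`
  have hUS1 : ∀ P : HeightOneSpectrum R, P ∉ S → US P.asIdeal f α := by
    intro P hPS
    by_cases hPT : P ∈ D.T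
    · exact hLDA R K P (ϖ P) (L P) (O' P) (ι P) (hC P) g f d α hfm hfn (hsm P) (hdT P hPT hPS) hα
        hNα (hLSP P)
    · by_cases hPT' : P ∈ D.T'
      · exact hIRU R K P (ϖ P) (L P) (O' P) (ι P) (hC P) g f (D.ρ P) α hfm hfn
          (hok.2.2.1 P hPT') (hf.2.2.2 P hPT') hα hNα
      · exact hLDA R K P (ϖ P) (L P) (O' P) (ι P) (hC P) g f d α hfm hfn (hsm P) (hdO P hPT hPT')
          hα hNα (hLSP P)
  have hty : ∀ P, ∃ x : Ty, P ∈ D.T →
      TyL (O' P) (ι P (algebraMap R K (ϖ P))) (c P) (γ P) x (α.map (ι P)) := by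
    intro P
    by_cases hP : P ∈ D.T
    · obtain ⟨x, hx⟩ := hCLA _ _ _ (hC P).loc g (c P) (γ P) hg (hdat P hP).1 _ (hcop P hP α hα)
      exact ⟨x, fun _ => hx⟩
    · exact ⟨0, fun h => absurd h hP⟩
  choose x hx using hty
  have hxW : x ∈ W := ⟨α, hα, hNα, fun P hP => hUS1 P fun h1 => hP (hST h1), hx⟩
  have hx0 : ∀ P ∈ D.T, x P = 0 := by
    refine hS x hxW (fun P hP => ?_) fun P hP hPS => ?_
    · exact hLDB R K P (ϖ P) (L P) (O' P) (ι P) (hC P) g f d α (c P) (γ P) (x P) hg hfm hfn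
        (hdat P (hST hP)).1 (hdat P (hST hP)).2.1 (hdS P hP).1 (hdS P hP).2 hα hNα (hLSP P)
        (hx P (hST hP))
    · exact (hTYU _ _ _ (hC P).loc g (c P) (γ P) hg (hdat P hP).1 _ (x P) (hcop P hP α hα)
        (hnsq P hP α hNα) (hx P hP)).1 (((hdat P hP).2.2.1 α hα).2 (hUS1 P hPS))
  refine hbad ⟨α, hα, hNα, hns, fun P => ?_, fun P hP => ?_⟩
  · by_cases hPT : P ∈ D.T
    · refine ((hdat P hPT).2.2.1 α hα).1 ?_
      refine (hTYU _ _ _ (hC P).loc g (c P) (γ P) hg (hdat P hPT).1 _ (x P)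
        (hcop P hPT α hα) (hnsq P hPT α hNα) (hx P hPT)).2 ?_
      rw [hx0 P hPT]
      rfl
    · exact hUS1 P fun h1 => hPT (hST h1)
  · refine (hdat P hP).2.2.2 α hα ?_
    refine hTY0 _ _ _ (hC P).loc g (c P) (γ P) hg (hdat P hP).1 _ (hcop P hP α hα)
      (hnsq P hP α hNα) ?_
    have := hx P hP
    rw [hx0 P hP] at this
    exact this

end ONEK90

/-- **ONEK.** -/
theorem onek (hLINB : LINBStmt) (hCMP : CMPKStmt) (hINO : INOKStmt) (hIRU : IRUKStmt)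
    (hLDA : LDAKStmt) (hLDB : LDBKStmt) (hTWS : TWSKStmt) (hUSM : USMKStmt) : ONEKStmt := by
  intro R _ _ K _ _ _ O π hGR g Ram hg hRec D h hok hRam f hf hsm hbad
  choose ϖ L hF O' ι _ _ hC using hCMP R K O π hGR
  obtain ⟨S, hS, hcore⟩ := ONEK90.core hLINB hINO hIRU hLDA hLDB hUSM hg hRec D h hok hRam f hf
    hsm hbad ϖ L O' ι hC
  refine ⟨S, hS, fun d hd => ?_⟩
  by_contra hne
  obtain ⟨α, hα, hNα, hns, hLS⟩ := hTWS R K g f d hf.1.1 hf.1.2.1 hd.1 hne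
  exact hcore d hd α hα hNα hns fun P => hLS (L P) (O' P) (ι P) (hC P).cpl

end Pool.T1
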