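import Pool.Agent.H14.T1.S3
import Pool.Agent.H25.HYP.QSP

/-!
# T1: QSL (the form of a class of given type over the completion)
-/

set_option autoImplicit false

namespace Pool.T1

open Polynomial Matrix Pool.HYP Pool.TOW Pool.AVS

namespace QSL90

variable {L : Type} [Field L] {O : ValuationSubring L} {π : L}

/-- A unit is a square modulo `π` if and only if it is a square. -/
theorem sqQ_iff (hL : Loc L O π) {u : L} (hu : UI (O : Set L) u) :
    SqQ (O : Set L) π u ↔ IsSquare u := by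
  constructor
  · rintro ⟨y, hy, hd⟩
    have := hL.hens
    have h2 : IsUnit (2 : O) :=
      NON34.isUnit_of_UI (2 : O) ⟨hL.two.1, (2 : O).2, hL.two.2⟩
    set uO : O := ⟨u, hu.2.1⟩ with huO
    set yO : O := ⟨y, hy⟩ with hyO
    have huu : IsUnit uO := NON34.isUnit_of_UI uO hu
    have hm : uO - yO ^ 2 ∈ IsLocalRing.maximalIdeal O := NON34.mem_max hL _ hd
    have hyu : IsUnit yO := by
      by_contra hn
      have h1 : yO ∈ IsLocalRing.maximalIdeal O := (IsLocalRing.mem_maximalIdeal yO).2 hn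
      have h3 : uO ∈ IsLocalRing.maximalIdeal O := by
        have h4 := add_mem hm (Ideal.pow_mem_of_mem _ h1 2 (by norm_num))
        rwa [sub_add_cancel] at h4
      exact (IsLocalRing.mem_maximalIdeal uO).1 h3 huu
    obtain ⟨r, hr⟩ := NON34.sqrt_unit h2 yO (uO - yO ^ 2) hyu hm
    refine ⟨(r : L), ?_⟩
    have h3 := congrArg (fun t : O => (t : L)) hr
    have h4 : (r : L) ^ 2 = y ^ 2 + (u - y ^ 2) := h3
    linear_combination -h4
  · rintro ⟨y, hy⟩
    have hyO : y ∈ O := by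
      rcases O.mem_or_inv_mem y with h | h
      · exact h
      · by_cases h0 : y = 0
        · rw [h0]
          exact O.zero_mem
        · have h1 : y = u * y⁻¹ := by
            rw [hy, mul_assoc, mul_inv_cancel₀ h0, mul_one]
          rw [h1]
          exact O.mul_mem _ _ hu.2.1 h
    refine ⟨y, hyO, ?_⟩
    rw [hy, pow_two, sub_self, zero_div]
    exact O.zero_mem

end QSL90

open Pool.HYP.H25QSP QSL90 in
/-- **QSL.** -/
theorem qsl : QSLStmt := by
  have hDEC := dec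
  have hNMU := nmu
  intro L _ O π hL g c γ hg hOk h x hcop hN ⟨n, p, hp, hdvd, hn, hx2⟩
  obtain ⟨hγ, hdeg, hirr⟩ := id hOk
  have hγL : (oL O γ).Monic := hγ.map _
  have hdegL : (oL O γ).natDegree = 2 * g := by rw [hγ.natDegree_map, hdeg]
  have hfL : oL O ((X - C c) * γ) = (X - C (c : L)) * oL O γ := by
    show ((X - C c) * γ).map (algebraMap O L) = _
    rw [Polynomial.map_mul, Polynomial.map_sub, map_X, map_C]
    rfl
  rw [hfL] at hcop hN ⊢
  have hu0 := eval_unit O hOk c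
  have hev : (oL O γ).eval (c : L) = ((γ.eval c : O) : L) := by
    show (γ.map (algebraMap O L)).eval (algebraMap O L c) = _
    rw [eval_map, eval₂_hom]
    rfl
  have hu := ui_of_unit O hu0
  obtain ⟨γc, hγc⟩ : ∃ γc : L, γc = (oL O γ).eval (c : L) := ⟨_, rfl⟩
  rw [← hev, ← hγc] at hu
  rw [← hγc] at hx2
  -- division by `X - c` modulo `γ`
  obtain ⟨p1, hp1⟩ : ∃ p1 : O[X], γ ∣ p - p1 * (C c - X) := by
    obtain ⟨v, hv⟩ := hu0
    have h1 : (X - C c) ∣ γ - C (γ.eval c) := X_sub_C_dvd_sub_C_eval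
    obtain ⟨q, hq⟩ := h1
    refine ⟨p * q * C ((v⁻¹ : Oˣ) : O), p * C ((v⁻¹ : Oˣ) : O), ?_⟩
    have h2 : C (γ.eval c) * C ((v⁻¹ : Oˣ) : O) = 1 := by
      rw [← C_mul, ← hv, Units.mul_inv, C_1]
    linear_combination (-p * C ((v⁻¹ : Oˣ) : O)) * hq - p * h2
  have hp1L : oL O γ ∣ oL O p - oL O p1 * (C (c : L) - X) := by
    have h1 := Polynomial.map_dvd (algebraMap O L) hp1
    rw [Polynomial.map_sub, Polynomial.map_mul, Polynomial.map_sub, map_X, map_C] at h1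
    exact h1
  -- norms
  obtain ⟨Np, hNp⟩ : ∃ Np, Np = Algebra.norm L (AdjoinRoot.mk (oL O γ) (oL O p)) := ⟨_, rfl⟩
  have hNpu : UI (O : Set L) Np := hNp ▸ norm_unit hγ hp
  have hNp1 : Algebra.norm L (AdjoinRoot.mk (oL O γ) (oL O p1)) * γc = Np := by
    rw [hγc, ← hNMU.2.2.1 L (c : L) (oL O γ) hγL, ← map_mul, ← map_mul, hNp]
    congr 1
    exact (AdjoinRoot.mk_eq_mk.2 hp1L).symm
  have hNh : h.eval (c : L) * ((π ^ n) ^ (2 * g) * Np) =
      Algebra.norm L (AdjoinRoot.mk ((X - C (c : L)) * oL O γ) h) := by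
    rw [hNMU.1 L _ _ _ (monic_X_sub_C _) hγL, hNMU.2.1, hNp, ← hdegL, ← norm_C hγL]
    congr 2
    exact (AdjoinRoot.mk_eq_mk.2 hdvd).symm
  obtain ⟨r, hr⟩ := hN
  rw [← hNh] at hr
  have hhc : h.eval (c : L) ≠ 0 := by
    intro h0
    obtain ⟨a, b, hab⟩ := hcop
    have h1 := congrArg (fun q => q.eval (c : L)) hab
    simp only [eval_add, eval_mul, eval_sub, eval_X, eval_C, sub_self, zero_mul, mul_zero,
      h0, add_zero, eval_one] at h1
    exact zero_ne_one h1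
  have hπ := hL.pi_ne
  have hπn : π ^ n ≠ 0 := zpow_ne_zero _ hπ
  obtain ⟨s, hs⟩ : ∃ s : L, h.eval (c : L) * Np = s ^ 2 := by
    refine ⟨r / (π ^ n) ^ g, ?_⟩
    rw [div_pow, eq_div_iff (pow_ne_zero 2 (pow_ne_zero _ hπn)), ← pow_mul]
    linear_combination hr
  have hs0 : s ≠ 0 := by
    rintro rfl
    exact mul_ne_zero hhc hNpu.1 (by rw [hs]; ring)
  obtain ⟨j, hj1, hj2⟩ := hL.arch s hs0
  have hπj : π ^ j ≠ 0 := zpow_ne_zero _ hπ
  obtain ⟨e, he⟩ : ∃ e, e = s / π ^ j := ⟨_, rfl⟩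
  have heu : UI (O : Set L) e := by
    rw [he]
    exact ⟨div_ne_zero hs0 hπj, hj1, hj2⟩
  have hse : s = e * π ^ j := by rw [he, div_mul_cancel₀ _ hπj]
  have hhc2 : h.eval (c : L) = (π ^ j) ^ 2 * (e ^ 2 * Np⁻¹) := by
    field_simp [hNpu.1]
    rw [hs, hse]
    ring
  have hεu : UI (O : Set L) (e ^ 2 * Np⁻¹ * γc) := by
    rw [pow_two]
    exact ui_mul O (ui_mul O (ui_mul O heu heu) (ui_inv O hNpu)) hu
  -- the matrix `Ψ`
  obtain ⟨Ψ, hΨ⟩ : ∃ Ψ, Ψ = gr 0 (2 * g) (oL O γ) (-oL O p1) := ⟨_, rfl⟩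
  have hΨs : Ψᵀ = Ψ := by rw [hΨ, gr_symm]
  have hΨO : ∀ i j, Ψ i j ∈ O := by
    intro i j
    rw [hΨ]
    show tau (oL O γ) (X ^ ((i : ℕ) + (j : ℕ) + 0) * (-oL O p1)) ∈ O
    have h1 : (X ^ ((i : ℕ) + (j : ℕ) + 0) * (-oL O p1) : L[X]) =
        oL O (X ^ ((i : ℕ) + (j : ℕ) + 0) * (-p1)) := by
      show _ = (X ^ ((i : ℕ) + (j : ℕ) + 0) * (-p1)).map (algebraMap O L)
      rw [Polynomial.map_mul, Polynomial.map_pow, map_X, Polynomial.map_neg]
    rw [h1, tau_oL O hγ]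
    exact (tau γ _).2
  have hΨd : (-1) ^ g * Ψ.det = Np / γc := by
    rw [hΨ, (gdt L (2 * g) (oL O γ) hγL hdegL).2, ← hNp1, mul_div_assoc, div_self hu.1, mul_one,
      show (-oL O p1 : L[X]) = C (-1) * oL O p1 by rw [C_neg, C_1]; ring, norm_C hγL, hdegL,
      (show Even (2 * g) from ⟨g, by ring⟩).neg_one_pow, one_mul, ← mul_assoc, ← pow_add]
    have h1 : 2 * g * (2 * g - 1) / 2 = g * (2 * g - 1) := by
      rw [mul_assoc, Nat.mul_div_cancel_left _ (by norm_num)]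
    rw [h1, Even.neg_one_pow, one_mul]
    refine ⟨g * g, ?_⟩
    obtain ⟨k, rfl⟩ : ∃ k, g = k + 1 := ⟨g - 1, by omega⟩
    have h2 : 2 * (k + 1) - 1 = 2 * k + 1 := by omega
    rw [h2]
    ring
  have hΨu : UI (O : Set L) Ψ.det := by
    have h1 : Ψ.det = (-1) ^ g * (Np * γc⁻¹) := by
      rw [← div_eq_mul_inv, ← hΨd, ← mul_assoc, ← mul_pow]
      norm_num
    rw [h1]
    refine ui_mul O ?_ (ui_mul O hNpu (ui_inv O hu))
    rcases neg_one_pow_eq_or L g with h2 | h2 <;> rw [h2]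
    · exact ⟨one_ne_zero, O.one_mem, by rw [inv_one]; exact O.one_mem⟩
    · exact ⟨neg_ne_zero.2 one_ne_zero, O.neg_mem _ O.one_mem, by
        rw [inv_neg, inv_one]
        exact O.neg_mem _ O.one_mem⟩
  -- decomposition
  obtain ⟨a, G, ha, haG, hG⟩ := hDEC L (2 * g) (c : L) (oL O γ) h (C (π ^ n) * (-oL O p1)) hγL
    hdegL (hγc ▸ hu.1) (by
      obtain ⟨q1, hq1⟩ := hp1L
      obtain ⟨q2, hq2⟩ := hdvd
      exact ⟨q2 + C (π ^ n) * q1, by linear_combination hq2 + C (π ^ n) * hq1⟩)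
  rw [gr_C, ← hΨ, ← hγc] at hG
  obtain ⟨m, hm⟩ := Int.even_or_odd' n
  obtain ⟨D, hD, hB⟩ := blk_scale hG (inv_ne_zero hπj) (inv_ne_zero (zpow_ne_zero m hπ))
  obtain ⟨G', hG'⟩ : ∃ G', G' = Dᵀ * G * D := ⟨_, rfl⟩
  rw [← hG'] at hB
  have hG'a : (a * D)ᵀ * gr 0 (2 * g + 1) ((X - C (c : L)) * oL O γ) h * (a * D) = G' := by
    rw [hG', ← haG, transpose_mul]
    simp only [Matrix.mul_assoc]
  have haD : (a * D).det ≠ 0 := by
    rw [det_mul]
    exact mul_ne_zero ha hD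
  have hε : (π ^ j)⁻¹ ^ 2 * (h.eval (c : L) * γc) = e ^ 2 * Np⁻¹ * γc := by
    rw [hhc2]
    field_simp
  rw [hε] at hB
  rcases hm with hm | hm
  · -- even valuation
    have hx1 : x.1 = 0 := by
      rw [← hn, hm]
      push_cast
      rw [show (2 : ZMod 2) = 0 from rfl, zero_mul]
    have hπm : (π ^ m)⁻¹ ^ 2 • π ^ n • Ψ = Ψ := by
      rw [smul_smul, hm, mul_comm 2 m, _root_.zpow_mul]
      have h1 : (π ^ m)⁻¹ ^ 2 * (π ^ m) ^ (2 : ℤ) = 1 := by
        rw [zpow_ofNat, ← mul_pow, inv_mul_cancel₀ (zpow_ne_zero m hπ), one_pow]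
      rw [h1, one_smul]
    rw [hπm] at hB
    refine ⟨fun _ => ⟨a * D, haD, ?_⟩, fun h1 => ?_⟩
    · rw [hG'a]
      refine ⟨fun i j => blk_mem hB O hεu.2.1 hΨO i j, ?_⟩
      rw [blk_det hB]
      exact ui_mul O hεu hΨu
    · rw [h1] at hx1
      exact absurd hx1 (by decide)
  · have hx1 : x.1 = 1 := by
      rw [← hn, hm]
      push_cast
      rw [show (2 : ZMod 2) = 0 from rfl, zero_mul, zero_add]
    have hπm : (π ^ m)⁻¹ ^ 2 • π ^ n • Ψ = π • Ψ := by
      rw [smul_smul, hm, zpow_add₀ hπ, zpow_one, mul_comm 2 m, _root_.zpow_mul]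
      have h1 : (π ^ m)⁻¹ ^ 2 * ((π ^ m) ^ (2 : ℤ) * π) = π := by
        rw [zpow_ofNat, ← mul_assoc, ← mul_pow, inv_mul_cancel₀ (zpow_ne_zero m hπ), one_pow,
          one_mul]
      rw [h1]
    rw [hπm] at hB
    have hsq : IsSquare ((-1) ^ g * Ψ.det) ↔ x.2 = 0 := by
      rw [hx2, hx1, hΨd, show (1 : ZMod 2).val = 1 from rfl, pow_one, hhc2]
      have h1 : (π ^ j) ^ 2 * (e ^ 2 * Np⁻¹) * γc = (π ^ j * e) ^ 2 * (Np / γc)⁻¹ := by
        field_simp
      rw [h1]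
      constructor
      · rintro ⟨y, hy⟩
        refine ⟨π ^ j * e * y⁻¹, ?_⟩
        rw [hy]
        field_simp
      · rintro ⟨y, hy⟩
        refine ⟨π ^ j * e * y⁻¹, ?_⟩
        have h2 : Np / γc = (π ^ j * e) ^ 2 * (y * y)⁻¹ := by
          rw [← hy, mul_inv, inv_inv, ← mul_assoc,
            mul_inv_cancel₀ (pow_ne_zero 2 (mul_ne_zero hπj heu.1)), one_mul]
        rw [h2]
        field_simp
    have hUneg : UI (O : Set L) ((-1) ^ g * Ψ.det) := by
      refine ui_mul O ?_ hΨu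
      rcases neg_one_pow_eq_or L g with h2 | h2 <;> rw [h2]
      · exact ⟨one_ne_zero, O.one_mem, by rw [inv_one]; exact O.one_mem⟩
      · exact ⟨neg_ne_zero.2 one_ne_zero, O.neg_mem _ O.one_mem, by
          rw [inv_neg, inv_one]
          exact O.neg_mem _ O.one_mem⟩
    obtain ⟨b0, b1, b2⟩ := hB
    have hof : (Matrix.of fun i j : Fin (2 * g) => G' i.succ j.succ / π) = Ψ := by
      ext i j
      show G' i.succ j.succ / π = Ψ i j
      rw [b2, Matrix.smul_apply, smul_eq_mul, mul_div_cancel_left₀ _ hπ]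
    refine ⟨fun h1 => ?_, fun _ => ⟨a * D, haD, ?_, ?_⟩⟩
    · rw [h1] at hx1
      exact absurd hx1 (by decide)
    · rw [hG'a]
      refine ⟨?_, fun j => ⟨?_, ?_⟩, fun i j => ?_, ?_⟩
      · rw [b0]
        exact hεu
      · rw [(b1 j).1, zero_div]
        exact O.zero_mem
      · rw [(b1 j).2, zero_div]
        exact O.zero_mem
      · rw [b2, Matrix.smul_apply, smul_eq_mul, mul_div_cancel_left₀ _ hπ]
        exact hΨO i j
      · rw [hof]
        exact hΨu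
    · have hdsc : dsc π G' = Ψ.det := congrArg Matrix.det hof
      rw [hG'a, hdsc, sqQ_iff hL hUneg]
      exact hsq

end Pool.T1
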